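import Pool.Agent.H.MP_59b15d_al.h93e.Lk
import Pool.Agent.H.MP_59b15d_al.h95e.Fa

set_option autoImplicit false

/-!
# Relations between the exchanges of handles, the twists and the front arcs
-/

namespace Pool.MP_59b15d_al.H47E

open Pool.MP_59b15d_al.H95E Pool.MP_59b15d_al.H93E

variable {Γ : Type*} [Group Γ]

theorem sc_conj {g x y : Γ} (h : SemiconjBy g x y) : g * x * g⁻¹ = y := by
  rw [h.eq, mul_inv_cancel_right]

theorem sc_conji {g x y : Γ} (h : SemiconjBy g x y) : g⁻¹ * y * g = x := by
  rw [mul_assoc, ← h.eq, inv_mul_cancel_left]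

theorem sc_of_eq {g x y : Γ} (h : g * x * g⁻¹ = y) : SemiconjBy g x y := by
  rw [SemiconjBy, ← h]; group

theorem sc_of_eqi {g x y : Γ} (h : y = g⁻¹ * x * g) : SemiconjBy g y x := by
  rw [SemiconjBy, h]; group

/-- What commutes with the image commutes with the conjugate. -/
theorem comm_conji {g f x y : Γ} (h : SemiconjBy g x y) (hf : Commute f y) :
    Commute (g⁻¹ * f * g) x :=
  (h.inv_symm_left.mul_left hf).mul_left h

/-- What commutes with the image commutes with the conjugate. -/
theorem comm_conj {g f x y : Γ} (h : SemiconjBy g x y) (hf : Commute f x) :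
    Commute (g * f * g⁻¹) y :=
  (h.mul_left hf).mul_left h.inv_symm_left

/-- Braid relations are preserved by conjugation. -/
theorem braid_conji {g f x y : Γ} (h : SemiconjBy g x y) (hf : y * f * y = f * y * f) :
    x * (g⁻¹ * f * g) * x = (g⁻¹ * f * g) * x * (g⁻¹ * f * g) := by
  have e : x = g⁻¹ * y * g := (sc_conji h).symm
  calc x * (g⁻¹ * f * g) * x = g⁻¹ * (y * f * y) * g := by rw [e]; group
    _ = g⁻¹ * (f * y * f) * g := by rw [hf]
    _ = _ := by rw [e]; group

/-- Braid relations are preserved by conjugation. -/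
theorem braid_conj {g f x y : Γ} (h : SemiconjBy g x y) (hf : x * f * x = f * x * f) :
    y * (g * f * g⁻¹) * y = (g * f * g⁻¹) * y * (g * f * g⁻¹) := by
  have e : y = g * x * g⁻¹ := (sc_conj h).symm
  calc y * (g * f * g⁻¹) * y = g * (x * f * x) * g⁻¹ := by rw [e]; group
    _ = g * (f * x * f) * g⁻¹ := by rw [hf]
    _ = _ := by rw [e]; group

section

variable {g : ℕ} {A B C S : ℕ → Γ}

/-- The exchange as a word in the twists. -/
theorem S_eq (L : Lk g A B C S) {i : ℕ} (hi : i + 1 < g) :
    S i = B i * A i * (C i * B i) * (B (i + 1) * C i) * (A (i + 1) * B (i + 1)) *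
      (A (i + 1) * (C i * B i * A i * C i * B i * C i)) *
      ((A i * B i) ^ 3 * (A (i + 1) * B (i + 1)) ^ 3)⁻¹ := by
  rw [L.gar i hi]; group

/-- What conjugates the twists of `i, i + 1` into those of `j, j + 1` conjugates the exchanges. -/
theorem S_sc (L : Lk g A B C S) {i j : ℕ} (hi : i + 1 < g) (hj : j + 1 < g) {x : Γ}
    (h1 : SemiconjBy x (A i) (A j)) (h2 : SemiconjBy x (B i) (B j))
    (h3 : SemiconjBy x (C i) (C j)) (h4 : SemiconjBy x (A (i + 1)) (A (j + 1)))
    (h5 : SemiconjBy x (B (i + 1)) (B (j + 1))) : SemiconjBy x (S i) (S j) := by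
  rw [S_eq L hi, S_eq L hj]
  refine SemiconjBy.mul_right ?_ (SemiconjBy.inv_right ?_)
  · exact ((((h2.mul_right h1).mul_right (h3.mul_right h2)).mul_right
      (h5.mul_right h3)).mul_right (h4.mul_right h5)).mul_right
      (h4.mul_right (((((h3.mul_right h2).mul_right h1).mul_right h3).mul_right h2).mul_right h3))
  · exact ((h1.mul_right h2).pow_right 3).mul_right ((h4.mul_right h5).pow_right 3)

/-- What commutes with the twists of `i, i + 1` commutes with the exchange. -/
theorem S_of (L : Lk g A B C S) {i : ℕ} (hi : i + 1 < g) {x : Γ}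
    (h1 : Commute x (A i)) (h2 : Commute x (B i)) (h3 : Commute x (C i))
    (h4 : Commute x (A (i + 1))) (h5 : Commute x (B (i + 1))) : Commute x (S i) :=
  S_sc L hi hi h1 h2 h3 h4 h5

/-- Distant exchanges commute. -/
theorem SS (L : Lk g A B C S) {i j : ℕ} (_ : i + 1 < g) (hj : j + 1 < g)
    (h : i + 1 < j ∨ j + 1 < i) : Commute (S i) (S j) :=
  S_of L hj (L.SAo i j (by omega) (by omega)) (L.SBo i j (by omega) (by omega))
    (L.SCo i j (by omega) (by omega) (by omega)) (L.SAo i (j + 1) (by omega) (by omega))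
    (L.SBo i (j + 1) (by omega) (by omega))

/-- `S i S (i + 1)` conjugates `S i` into `S (i + 1)`. -/
theorem SSS_sc (L : Lk g A B C S) {i : ℕ} (hi : i + 2 < g) :
    SemiconjBy (S i * S (i + 1)) (S i) (S (i + 1)) := by
  refine S_sc L (by omega) hi ?_ ?_ (by rw [SemiconjBy, L.SSC i hi, mul_assoc]) ?_ ?_
  · exact SemiconjBy.mul_left (L.SA i (by omega)) (L.SAo (i + 1) i (by omega) (by omega))
  · exact SemiconjBy.mul_left (L.SB i (by omega)) (L.SBo (i + 1) i (by omega) (by omega))
  · exact SemiconjBy.mul_left (L.SAo i (i + 2) (by omega) (by omega)) (L.SA (i + 1) hi)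
  · exact SemiconjBy.mul_left (L.SBo i (i + 2) (by omega) (by omega)) (L.SB (i + 1) hi)

/-- The braid relation of the exchanges. -/
theorem SSS (L : Lk g A B C S) {i : ℕ} (hi : i + 2 < g) :
    S i * S (i + 1) * S i = S (i + 1) * S i * S (i + 1) := by
  rw [(SSS_sc L hi).eq, mul_assoc]

/-- The exchange permutes the `A j`. -/
theorem S_A (L : Lk g A B C S) {i : ℕ} (hi : i + 1 < g) (j : ℕ) :
    SemiconjBy (S i) (A j) (A (Equiv.swap i (i + 1) j)) := by
  by_cases h1 : j = i
  · subst h1
    rw [Equiv.swap_apply_left]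
    exact L.SA j hi
  by_cases h2 : j = i + 1
  · subst h2
    rw [Equiv.swap_apply_right]
    exact L.SA' i hi
  rw [Equiv.swap_apply_of_ne_of_ne h1 h2]
  exact L.SAo i j h1 h2

/-- The exchange permutes the `B j`. -/
theorem S_B (L : Lk g A B C S) {i : ℕ} (hi : i + 1 < g) (j : ℕ) :
    SemiconjBy (S i) (B j) (B (Equiv.swap i (i + 1) j)) := by
  by_cases h1 : j = i
  · subst h1
    rw [Equiv.swap_apply_left]
    exact L.SB j hi
  by_cases h2 : j = i + 1
  · subst h2
    rw [Equiv.swap_apply_right]
    exact L.SB' i hi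
  rw [Equiv.swap_apply_of_ne_of_ne h1 h2]
  exact L.SBo i j h1 h2

/-! ### Front arcs -/

/-- A front arc commutes with all `A j`. -/
theorem fa_A (L : Lk g A B C S) {l : ℕ} (n : ℕ) (h : l + n + 1 < g) (j : ℕ) :
    Commute (fa C S l n) (A j) := by
  induction n generalizing j with
  | zero => exact (L.AC j l).symm
  | succ n ih =>
    rw [fa_succ]
    exact comm_conji (S_A L (by omega) j) (ih (by omega) _)

/-- A front arc commutes with the `B j` except at its ends. -/
theorem fa_B (L : Lk g A B C S) {l : ℕ} (n : ℕ) (h : l + n + 1 < g) {j : ℕ} (h1 : j ≠ l)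
    (h2 : j ≠ l + n + 1) : Commute (fa C S l n) (B j) := by
  induction n generalizing j with
  | zero => exact (L.BC j l h1 h2).symm
  | succ n ih =>
    rw [fa_succ]
    by_cases h3 : j = l + n + 1
    · subst h3
      exact comm_conji (L.SB _ (by omega)) (ih (by omega) (by omega) (by omega))
    · exact comm_conji (L.SBo (l + n + 1) j h3 (by omega)) (ih (by omega) h1 h3)

/-- The braid relation at the first end. -/
theorem fa_brl (L : Lk g A B C S) {l : ℕ} (n : ℕ) (h : l + n + 1 < g) :
    B l * fa C S l n * B l = fa C S l n * B l * fa C S l n := by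
  induction n with
  | zero => exact L.brC l (by omega)
  | succ n ih =>
    rw [fa_succ]
    exact braid_conji (L.SBo (l + n + 1) l (by omega) (by omega)) (ih (by omega))

/-- The braid relation at the last end. -/
theorem fa_brr (L : Lk g A B C S) {l : ℕ} (n : ℕ) (h : l + n + 1 < g) :
    B (l + n + 1) * fa C S l n * B (l + n + 1) =
      fa C S l n * B (l + n + 1) * fa C S l n := by
  induction n with
  | zero => exact L.brC' l (by omega)
  | succ n ih =>
    rw [fa_succ]
    exact braid_conji (L.SB' (l + n + 1) (by omega)) (ih (by omega))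

/-- The exchange to the right of a front arc commutes with it. -/
theorem fa_Sr (L : Lk g A B C S) {l : ℕ} (n : ℕ) {i : ℕ} (hi : i + 1 < g) (h : l + n + 1 < i) :
    Commute (S i) (fa C S l n) := by
  induction n with
  | zero => exact L.SCo i l (by omega) (by omega) (by omega)
  | succ n ih =>
    rw [fa_succ]
    have h1 : Commute (S i) (S (l + n + 1)) := SS L hi (by omega) (Or.inr (by omega))
    exact ((h1.inv_right).mul_right (ih (by omega))).mul_right h1

/-- The exchange to the left of a front arc commutes with it. -/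
theorem fa_Sl (L : Lk g A B C S) {l : ℕ} (n : ℕ) {i : ℕ} (hi : i + 1 < l) (h : l + n + 1 < g) :
    Commute (S i) (fa C S l n) := by
  induction n with
  | zero => exact L.SCo i l (by omega) (by omega) (by omega)
  | succ n ih =>
    rw [fa_succ]
    have h1 : Commute (S i) (S (l + n + 1)) := SS L (by omega) (by omega) (Or.inl (by omega))
    exact ((h1.inv_right).mul_right (ih (by omega))).mul_right h1

/-- The exchange of two handles between the ends of a front arc commutes with it. -/
theorem fa_Sm (L : Lk g A B C S) {l : ℕ} (n : ℕ) {i : ℕ} (hi : l < i) (hi' : i < l + n)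
    (h : l + n + 1 < g) : Commute (S i) (fa C S l n) := by
  induction n with
  | zero => omega
  | succ n ih =>
    rw [fa_succ]
    by_cases h1 : i < l + n
    · have h2 : Commute (S i) (S (l + n + 1)) := SS L (by omega) (by omega) (Or.inl (by omega))
      exact ((h2.inv_right).mul_right (ih h1 (by omega))).mul_right h2
    · obtain ⟨m, rfl⟩ : ∃ m, n = m + 1 := ⟨n - 1, by omega⟩
      have hi2 : i = l + m + 1 := by omega
      have e2 : l + (m + 1) + 1 = i + 1 := by omega
      rw [fa_succ, e2, ← hi2]
      have h2 : Commute (S (i + 1)) (fa C S l m) := fa_Sr L m (by omega) (by omega)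
      have h3 : S i * S (i + 1) * S i = S (i + 1) * S i * S (i + 1) := SSS L (by omega)
      have h4 : SemiconjBy (S i * S (i + 1)) (S i) (S (i + 1)) := SSS_sc L (by omega)
      have e3 : (S (i + 1))⁻¹ * ((S i)⁻¹ * fa C S l m * S i) * S (i + 1) =
          (S i * S (i + 1))⁻¹ * fa C S l m * (S i * S (i + 1)) := by group
      rw [e3]
      exact (comm_conji h4 h2.symm).symm

/-- Exchanges disjoint from the ends of a front arc commute with it. -/
theorem fa_S (L : Lk g A B C S) {l : ℕ} (n : ℕ) {i : ℕ} (hi : i + 1 < g) (h : l + n + 1 < g)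
    (h1 : i ≠ l) (h2 : i + 1 ≠ l) (h3 : i ≠ l + n + 1) (h4 : i + 1 ≠ l + n + 1) :
    Commute (S i) (fa C S l n) := by
  rcases lt_or_ge i l with h5 | h5
  · exact fa_Sl L n (by omega) h
  rcases lt_or_ge i (l + n) with h6 | h6
  · exact fa_Sm L n (by omega) h6 h
  · exact fa_Sr L n hi (by omega)

/-- Moving the last end to the right. -/
theorem fa_right (C S : ℕ → Γ) (l n : ℕ) :
    SemiconjBy (S (l + n + 1)) (fa C S l (n + 1)) (fa C S l n) :=
  sc_of_eqi (fa_succ C S l n)

/-- Moving the first end to the left. -/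
theorem fa_left (L : Lk g A B C S) {l : ℕ} (n : ℕ) (h : l + n + 2 < g) :
    SemiconjBy (S l) (fa C S (l + 1) n) (fa C S l (n + 1)) := by
  induction n with
  | zero =>
    have h1 : S (l + 1) * S l * C (l + 1) = C l * S (l + 1) * S l := L.SSC' l h
    have e : fa C S l (0 + 1) = (S (l + 1))⁻¹ * C l * S (l + 1) := rfl
    have e' : fa C S (l + 1) 0 = C (l + 1) := rfl
    rw [e, e', SemiconjBy]
    calc S l * C (l + 1) = (S (l + 1))⁻¹ * (S (l + 1) * S l * C (l + 1)) := by group
      _ = (S (l + 1))⁻¹ * (C l * S (l + 1) * S l) := by rw [h1]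
      _ = _ := by group
  | succ n ih =>
    have e1 : l + 1 + n + 1 = l + (n + 1) + 1 := by omega
    have e2 : fa C S l (n + 1 + 1) =
        (S (l + (n + 1) + 1))⁻¹ * fa C S l (n + 1) * S (l + (n + 1) + 1) := rfl
    rw [fa_succ, e1, e2]
    have h1 : Commute (S l) (S (l + (n + 1) + 1)) := SS L (by omega) (by omega)
      (Or.inl (by omega))
    exact (SemiconjBy.mul_right (h1.inv_right) (ih (by omega))).mul_right h1

/-! ### The half turns -/

theorem io_A (L : Lk g A B C S) (i j : ℕ) : Commute ((A i * B i) ^ 3) (A j) := by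
  by_cases h : j = i
  · subst h
    have h1 : (A j * B j) ^ 3 = (A j * B j * A j) * (A j * B j * A j) := by
      calc (A j * B j) ^ 3 = A j * B j * A j * (B j * A j * B j) := by
            simp only [pow_succ, pow_zero]; group
        _ = _ := by rw [L.brA j]
    have h2 : SemiconjBy (A j * B j * A j) (A j) (B j) := by
      change A j * B j * A j * A j = B j * (A j * B j * A j)
      conv_lhs => rw [L.brA j]
      calc B j * A j * B j * A j = B j * (A j * B j * A j) := by group
        _ = _ := by rfl
    have h3 : SemiconjBy (A j * B j * A j) (B j) (A j) := by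
      change A j * B j * A j * B j = A j * (A j * B j * A j)
      conv_rhs => rw [L.brA j]
      group
    rw [h1]
    exact SemiconjBy.mul_left h3 h2
  · exact (((L.AA i j).mul_left (L.AB j i h).symm)).pow_left 3

theorem io_B (L : Lk g A B C S) (i j : ℕ) : Commute ((A i * B i) ^ 3) (B j) := by
  by_cases h : j = i
  · subst h
    have h1 : (A j * B j) ^ 3 = (A j * B j * A j) * (A j * B j * A j) := by
      calc (A j * B j) ^ 3 = A j * B j * A j * (B j * A j * B j) := by
            simp only [pow_succ, pow_zero]; group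
        _ = _ := by rw [L.brA j]
    have h2 : SemiconjBy (A j * B j * A j) (A j) (B j) := by
      change A j * B j * A j * A j = B j * (A j * B j * A j)
      conv_lhs => rw [L.brA j]
      calc B j * A j * B j * A j = B j * (A j * B j * A j) := by group
        _ = _ := by rfl
    have h3 : SemiconjBy (A j * B j * A j) (B j) (A j) := by
      change A j * B j * A j * B j = A j * (A j * B j * A j)
      conv_rhs => rw [L.brA j]
      group
    rw [h1]
    exact SemiconjBy.mul_left h2 h3
  · exact (((L.AB i j (Ne.symm h)).mul_left (L.BB i j))).pow_left 3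

/-- A half turn commutes with the front arcs which do not end at its handle. -/
theorem io_fa (L : Lk g A B C S) {l : ℕ} (n : ℕ) (h : l + n + 1 < g) {i : ℕ} (h1 : i ≠ l)
    (h2 : i ≠ l + n + 1) : Commute ((A i * B i) ^ 3) (fa C S l n) :=
  (((fa_A L n h i).symm).mul_left (fa_B L n h h1 h2).symm).pow_left 3

theorem S_io (L : Lk g A B C S) {i : ℕ} (hi : i + 1 < g) (j : ℕ) :
    SemiconjBy (S i) ((A j * B j) ^ 3)
      ((A (Equiv.swap i (i + 1) j) * B (Equiv.swap i (i + 1) j)) ^ 3) :=
  ((S_A L hi j).mul_right (S_B L hi j)).pow_right 3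

/-! ### Bounding pairs -/

/-- The relations of the twist `T` which forms a bounding pair with `A q`. -/
structure Bp (g : ℕ) (A B C S : ℕ → Γ) (q : ℕ) (T : Γ) : Prop where
  TA : ∀ i, Commute T (A i)
  TB : ∀ i, i ≠ q → Commute T (B i)
  TC : ∀ i, Commute T (C i)
  brT : T * B q * T = B q * T * B q

theorem T_S (L : Lk g A B C S) {q : ℕ} {T : Γ} (P : Bp g A B C S q T) {i : ℕ} (hi : i + 1 < g)
    (h1 : i ≠ q) (h2 : i + 1 ≠ q) : Commute T (S i) :=
  S_of L hi (P.TA i) (P.TB i h1) (P.TC i) (P.TA (i + 1)) (P.TB (i + 1) h2)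

/-- `T` commutes with the front arcs to the right of `q`. -/
theorem T_far (L : Lk g A B C S) {q : ℕ} {T : Γ} (P : Bp g A B C S q T) {l : ℕ} (n : ℕ)
    (h : l + n + 1 < g) (h1 : q ≤ l) : Commute T (fa C S l n) := by
  induction n with
  | zero => exact P.TC l
  | succ n ih =>
    rw [fa_succ]
    have h2 : Commute T (S (l + n + 1)) := T_S L P (by omega) (by omega) (by omega)
    exact (h2.inv_right.mul_right (ih (by omega))).mul_right h2

/-- `T` commutes with the front arcs to the left of `q`. -/
theorem T_fal (L : Lk g A B C S) {q : ℕ} {T : Γ} (P : Bp g A B C S q T) {l : ℕ} (n : ℕ)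
    (hq : q < g) (h : l + n + 1 ≤ q) : Commute T (fa C S l n) := by
  induction n generalizing l with
  | zero => exact P.TC l
  | succ n ih =>
    have h1 := fa_left L (l := l) n (by omega)
    have h2 : Commute T (S l) := T_S L P (by omega) (by omega) (by omega)
    have h3 : fa C S l (n + 1) = S l * fa C S (l + 1) n * (S l)⁻¹ := (sc_conj h1).symm
    rw [h3]
    exact (h2.mul_right (ih (by omega))).mul_right h2.inv_right

theorem T_io {A B C S : ℕ → Γ} {q : ℕ} {T : Γ} (P : Bp g A B C S q T) {i : ℕ} (h : i ≠ q) :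
    Commute T ((A i * B i) ^ 3) := ((P.TA i).mul_right (P.TB i h)).pow_right 3

end

end Pool.MP_59b15d_al.H47E
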