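import Pool.Agent.H.MP_59b15d_al.h47e.LJ

set_option autoImplicit false

/-!
# The lantern relation for three handles and the elements of `LJ`
-/

namespace Pool.MP_59b15d_al.H47E

open Module Pool.MP_59b15d_al.H95E Pool.MP_59b15d_al.H93E

variable {Γ : Type*} [Group Γ]

/-- The lantern relation for the handles `l`, `l + m + 1`, `l + m + n + 2`. -/
def Lt (A B C S : ℕ → Γ) (l m n : ℕ) : Prop :=
  ∃ E, fa C S l m * ((A (l + m + 1) * B (l + m + 1)) ^ 3 * fa C S (l + m + 1) n *
      ((A (l + m + 1) * B (l + m + 1)) ^ 3)⁻¹) * fa C S l (m + n + 1) =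
    A l * A (l + m + 1) * A (l + m + n + 2) * E ∧
    E * B l * E = B l * E * B l ∧
    E * B (l + m + 1) * E = B (l + m + 1) * E * B (l + m + 1) ∧
    E * B (l + m + n + 2) * E = B (l + m + n + 2) * E * B (l + m + n + 2)

/-- The lantern relation for consecutive handles. -/
structure Ln (g : ℕ) (A B C S : ℕ → Γ) : Prop where
  lan : ∀ i, i + 2 < g → Lt A B C S i 0 0

variable {g : ℕ} {A B C S : ℕ → Γ}

theorem sc_cancel {y x1 x2 z1 z2 : Γ} (h1 : SemiconjBy y x1 x2) (h2 : SemiconjBy y z1 z2)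
    (h : x2 = z2) : x1 = z1 := by
  have h3 : y * x1 = y * z1 := by rw [h1.eq, h2.eq, h]
  exact mul_left_cancel h3

theorem braid_sc {y x1 x2 e1 e2 : Γ} (h1 : SemiconjBy y x1 x2) (h2 : SemiconjBy y e1 e2)
    (h : e2 * x2 * e2 = x2 * e2 * x2) : e1 * x1 * e1 = x1 * e1 * x1 :=
  sc_cancel ((h2.mul_right h1).mul_right h2) ((h1.mul_right h2).mul_right h1) h

theorem io_sc {y a b a' b' : Γ} (h1 : SemiconjBy y a a') (h2 : SemiconjBy y b b') :
    SemiconjBy y ((a * b) ^ 3) ((a' * b') ^ 3) := (h1.mul_right h2).pow_right 3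

theorem Lt_right (L : Lk g A B C S) {l m n : ℕ} (h : l + m + n + 3 < g) (H : Lt A B C S l m n) :
    Lt A B C S l m (n + 1) := by
  obtain ⟨E, h0, h1, h2, h3⟩ := H
  have k1 : l + m + (n + 1) + 2 = l + m + n + 2 + 1 := by omega
  have k2 : m + (n + 1) + 1 = m + n + 1 + 1 := by omega
  have hS : l + m + n + 2 + 1 < g := by omega
  have sA : SemiconjBy (S (l + m + n + 2)) (A (l + m + n + 2 + 1)) (A (l + m + n + 2)) :=
    L.SA' _ hS
  have sB : SemiconjBy (S (l + m + n + 2)) (B (l + m + n + 2 + 1)) (B (l + m + n + 2)) :=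
    L.SB' _ hS
  have sAl : SemiconjBy (S (l + m + n + 2)) (A l) (A l) := L.SAo _ _ (by omega) (by omega)
  have sBl : SemiconjBy (S (l + m + n + 2)) (B l) (B l) := L.SBo _ _ (by omega) (by omega)
  have sAm : SemiconjBy (S (l + m + n + 2)) (A (l + m + 1)) (A (l + m + 1)) :=
    L.SAo _ _ (by omega) (by omega)
  have sBm : SemiconjBy (S (l + m + n + 2)) (B (l + m + 1)) (B (l + m + 1)) :=
    L.SBo _ _ (by omega) (by omega)
  have f1 : SemiconjBy (S (l + m + n + 2)) (fa C S l m) (fa C S l m) :=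
    fa_Sr L m hS (by omega)
  have f2 : SemiconjBy (S (l + m + n + 2)) (fa C S (l + m + 1) (n + 1))
      (fa C S (l + m + 1) n) := by
    have e : l + m + 1 + n + 1 = l + m + n + 2 := by omega
    rw [← e]
    exact fa_right C S (l + m + 1) n
  have f3 : SemiconjBy (S (l + m + n + 2)) (fa C S l (m + n + 1 + 1))
      (fa C S l (m + n + 1)) := by
    have e : l + (m + n + 1) + 1 = l + m + n + 2 := by omega
    rw [← e]
    exact fa_right C S l (m + n + 1)
  have sE : SemiconjBy (S (l + m + n + 2)) ((S (l + m + n + 2))⁻¹ * E * S (l + m + n + 2)) E :=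
    sc_of_eqi rfl
  have sio := io_sc sAm sBm
  refine ⟨(S (l + m + n + 2))⁻¹ * E * S (l + m + n + 2), ?_, ?_, ?_, ?_⟩
  · rw [k1, k2]
    exact sc_cancel ((f1.mul_right ((sio.mul_right f2).mul_right sio.inv_right)).mul_right f3)
      (((sAl.mul_right sAm).mul_right sA).mul_right sE) h0
  · exact braid_sc sBl sE h1
  · exact braid_sc sBm sE h2
  · rw [k1]
    exact braid_sc sB sE h3

theorem Lt_mid (L : Lk g A B C S) {l m n : ℕ} (h : l + m + n + 3 < g)
    (H : Lt A B C S l m (n + 1)) : Lt A B C S l (m + 1) n := by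
  obtain ⟨E, h0, h1, h2, h3⟩ := H
  have k1 : l + m + (n + 1) + 2 = l + m + n + 3 := by omega
  have k1' : l + (m + 1) + n + 2 = l + m + n + 3 := by omega
  have k2 : m + (n + 1) + 1 = m + n + 2 := by omega
  have k2' : m + 1 + n + 1 = m + n + 2 := by omega
  have k3 : l + (m + 1) + 1 = l + m + 1 + 1 := by omega
  rw [k1, k2] at h0
  rw [k1] at h3
  have hS : l + m + 1 + 1 < g := by omega
  have sA : SemiconjBy (S (l + m + 1)) (A (l + m + 1 + 1)) (A (l + m + 1)) := L.SA' _ hS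
  have sB : SemiconjBy (S (l + m + 1)) (B (l + m + 1 + 1)) (B (l + m + 1)) := L.SB' _ hS
  have sAl : SemiconjBy (S (l + m + 1)) (A l) (A l) := L.SAo _ _ (by omega) (by omega)
  have sBl : SemiconjBy (S (l + m + 1)) (B l) (B l) := L.SBo _ _ (by omega) (by omega)
  have sAk : SemiconjBy (S (l + m + 1)) (A (l + m + n + 3)) (A (l + m + n + 3)) :=
    L.SAo _ _ (by omega) (by omega)
  have sBk : SemiconjBy (S (l + m + 1)) (B (l + m + n + 3)) (B (l + m + n + 3)) :=
    L.SBo _ _ (by omega) (by omega)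
  have f1 : SemiconjBy (S (l + m + 1)) (fa C S l (m + 1)) (fa C S l m) := fa_right C S l m
  have f2 : SemiconjBy (S (l + m + 1)) (fa C S (l + m + 1 + 1) n)
      (fa C S (l + m + 1) (n + 1)) := fa_left L n (by omega)
  have f3 : SemiconjBy (S (l + m + 1)) (fa C S l (m + n + 2)) (fa C S l (m + n + 2)) :=
    fa_Sm L (m + n + 2) (by omega) (by omega) (by omega)
  have sE : SemiconjBy (S (l + m + 1)) ((S (l + m + 1))⁻¹ * E * S (l + m + 1)) E :=
    sc_of_eqi rfl
  have sio := io_sc sA sB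
  refine ⟨(S (l + m + 1))⁻¹ * E * S (l + m + 1), ?_, ?_, ?_, ?_⟩
  · rw [k1', k2', k3]
    exact sc_cancel ((f1.mul_right ((sio.mul_right f2).mul_right sio.inv_right)).mul_right f3)
      (((sAl.mul_right sA).mul_right sAk).mul_right sE) h0
  · exact braid_sc sBl sE h1
  · rw [k3]
    exact braid_sc sB sE h2
  · rw [k1']
    exact braid_sc sBk sE h3

/-- The lantern relation for all triples of handles. -/
theorem Lt_all (L : Lk g A B C S) (R : Ln g A B C S) (l : ℕ) :
    ∀ m n, l + m + n + 2 < g → Lt A B C S l m n := by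
  intro m
  induction m with
  | zero =>
    intro n
    induction n with
    | zero => exact fun h => R.lan l (by omega)
    | succ n ih => exact fun h => Lt_right L (by omega) (ih (by omega))
  | succ m ih =>
    intro n h
    exact Lt_mid L (by omega) (ih (n + 1) (by omega))

/-! ### Elements of `LJ` -/

variable {q : ℕ} {T : Γ} {J : List ℕ}

/-- An element commuting with all `A` and with `T` which satisfies the braid relation with `B l`. -/
theorem mem_SJ {t : Γ} (h1 : ∀ j, Commute t (A j)) (h2 : Commute t T) {l : ℕ} (hl : l < g)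
    (hl' : l ∉ q :: J) (h3 : t * B l * t = B l * t * B l) : t ∈ LJ g A B q T J :=
  SJ_le ⟨fun j _ => h1 j, h1 q, h2, l, hl, hl', h3⟩

/-- The twist `A l` of a free handle. -/
theorem A_free (L : Lk g A B C S) (P : Bp g A B C S q T) {l : ℕ} (hl : l < g)
    (hl' : l ∉ q :: J) : A l ∈ LJ g A B q T J :=
  mem_SJ (L.AA l) (P.TA l).symm hl hl' (L.brA l)

/-- The data of a lantern on one side of `q`. -/
theorem lt_side (L : Lk g A B C S) (R : Ln g A B C S) (P : Bp g A B C S q T) {l m n : ℕ}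
    (hq : q < g) (h : l + m + n + 2 < g) (hs : q ≤ l ∨ l + m + n + 2 ≤ q) :
    ∃ E, fa C S l m * ((A (l + m + 1) * B (l + m + 1)) ^ 3 * fa C S (l + m + 1) n *
      ((A (l + m + 1) * B (l + m + 1)) ^ 3)⁻¹) * fa C S l (m + n + 1) =
      A l * A (l + m + 1) * A (l + m + n + 2) * E ∧
      (∀ j, Commute E (A j)) ∧ Commute E T ∧
      E * B l * E = B l * E * B l ∧
      E * B (l + m + 1) * E = B (l + m + 1) * E * B (l + m + 1) ∧
      E * B (l + m + n + 2) * E = B (l + m + n + 2) * E * B (l + m + n + 2) := by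
  obtain ⟨E, h0, h1, h2, h3⟩ := Lt_all L R l m n h
  have e : E = (A l * A (l + m + 1) * A (l + m + n + 2))⁻¹ *
      (fa C S l m * ((A (l + m + 1) * B (l + m + 1)) ^ 3 * fa C S (l + m + 1) n *
      ((A (l + m + 1) * B (l + m + 1)) ^ 3)⁻¹) * fa C S l (m + n + 1)) := by
    rw [h0]; group
  have hc : ∀ x, (∀ j, Commute (A j) x) → Commute (fa C S l m) x →
      Commute ((A (l + m + 1) * B (l + m + 1)) ^ 3) x → Commute (fa C S (l + m + 1) n) x →
      Commute (fa C S l (m + n + 1)) x → Commute E x := by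
    intro x g1 g2 g3 g4 g5
    rw [e]
    exact ((((g1 l).mul_left (g1 _)).mul_left (g1 _)).inv_left).mul_left
      ((g2.mul_left ((g3.mul_left g4).mul_left g3.inv_left)).mul_left g5)
  refine ⟨E, h0, fun j => ?_, ?_, h1, h2, h3⟩
  · exact hc _ (fun i => L.AA i j) (fa_A L m (by omega) j) (io_A L _ j)
      (fa_A L n (by omega) j) (fa_A L (m + n + 1) (by omega) j)
  · have t1 : ∀ l' n', l ≤ l' → l' + n' + 1 ≤ l + m + n + 2 → Commute (fa C S l' n') T := by
      intro l' n' g1 g2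
      rcases hs with hs | hs
      · exact (T_far L P n' (by omega) (by omega)).symm
      · exact (T_fal L P n' hq (by omega)).symm
    exact hc _ (fun i => (P.TA i).symm) (t1 _ _ (by omega) (by omega))
      (T_io P (by omega)).symm (t1 _ _ (by omega) (by omega)) (t1 _ _ (by omega) (by omega))

/-- Front arcs on one side of `q` with a free end. -/
theorem fa_free (L : Lk g A B C S) (P : Bp g A B C S q T) {l n : ℕ} (hq : q < g)
    (h : l + n + 1 < g) (hs : q ≤ l ∨ l + n + 1 ≤ q)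
    (hf : l ∉ q :: J ∨ l + n + 1 ∉ q :: J) : fa C S l n ∈ LJ g A B q T J := by
  have hT : Commute (fa C S l n) T := by
    rcases hs with hs | hs
    · exact (T_far L P n h hs).symm
    · exact (T_fal L P n hq hs).symm
  rcases hf with hf | hf
  · exact mem_SJ (fa_A L n h) hT (by omega) hf (fa_brl L n h).symm
  · exact mem_SJ (fa_A L n h) hT (by omega) hf (fa_brr L n h).symm

/-- All three `A`'s of a lantern with two free handles belong to `LJ`. -/
theorem A_trip (L : Lk g A B C S) (R : Ln g A B C S) (P : Bp g A B C S q T) {l m n : ℕ}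
    (hq : q < g) (h : l + m + n + 2 < g) (hs : q ≤ l ∨ l + m + n + 2 ≤ q)
    (h1 : l ∉ q :: J ∨ l + m + 1 ∉ q :: J) (h2 : l ∉ q :: J ∨ l + m + n + 2 ∉ q :: J)
    (h3 : l + m + 1 ∉ q :: J ∨ l + m + n + 2 ∉ q :: J) :
    A l ∈ LJ g A B q T J ∧ A (l + m + 1) ∈ LJ g A B q T J ∧
      A (l + m + n + 2) ∈ LJ g A B q T J := by
  obtain ⟨E, h0, e1, e2, e3, e4, e5⟩ := lt_side L R P hq h hs
  have k1 : l + (m + n + 1) + 1 = l + m + n + 2 := by omega
  have k2 : l + m + 1 + n + 1 = l + m + n + 2 := by omega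
  have hs1 : q ≤ l ∨ l + m + 1 ≤ q := hs.imp id fun _ => by omega
  have hs2 : q ≤ l + m + 1 ∨ l + m + 1 + n + 1 ≤ q := by
    rcases hs with hs | hs
    · exact Or.inl (by omega)
    · exact Or.inr (by omega)
  have hs3 : q ≤ l ∨ l + (m + n + 1) + 1 ≤ q := hs.imp id fun _ => by omega
  have c1 : fa C S l m ∈ LJ g A B q T J := fa_free L P hq (by omega) hs1 h1
  have c2 : fa C S (l + m + 1) n ∈ LJ g A B q T J :=
    fa_free L P hq (by omega) hs2 (by rw [k2]; exact h3)
  have c3 : fa C S l (m + n + 1) ∈ LJ g A B q T J :=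
    fa_free L P hq (by omega) hs3 (by rw [k1]; exact h2)
  have c2' : (A (l + m + 1) * B (l + m + 1)) ^ 3 * fa C S (l + m + 1) n *
      ((A (l + m + 1) * B (l + m + 1)) ^ 3)⁻¹ ∈ LJ g A B q T J :=
    io_norm L P (by omega) c2
  have hE : E ∈ LJ g A B q T J := by
    rcases h1 with h1 | h1
    · exact mem_SJ e1 e2 (by omega) h1 e3
    · exact mem_SJ e1 e2 (by omega) h1 e4
  have prod : A l * A (l + m + 1) * A (l + m + n + 2) ∈ LJ g A B q T J := by
    have e : A l * A (l + m + 1) * A (l + m + n + 2) =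
        fa C S l m * ((A (l + m + 1) * B (l + m + 1)) ^ 3 * fa C S (l + m + 1) n *
        ((A (l + m + 1) * B (l + m + 1)) ^ 3)⁻¹) * fa C S l (m + n + 1) * E⁻¹ := by
      rw [h0]; group
    rw [e]
    exact mul_mem (mul_mem (mul_mem c1 c2') c3) (inv_mem hE)
  have A1 : l ∉ q :: J → A l ∈ LJ g A B q T J := fun hf => A_free L P (by omega) hf
  have A2 : l + m + 1 ∉ q :: J → A (l + m + 1) ∈ LJ g A B q T J :=
    fun hf => A_free L P (by omega) hf
  have A3 : l + m + n + 2 ∉ q :: J → A (l + m + n + 2) ∈ LJ g A B q T J :=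
    fun hf => A_free L P (by omega) hf
  by_cases f1 : l ∉ q :: J
  · by_cases f2 : l + m + 1 ∉ q :: J
    · refine ⟨A1 f1, A2 f2, ?_⟩
      have e : A (l + m + n + 2) = (A l * A (l + m + 1))⁻¹ *
          (A l * A (l + m + 1) * A (l + m + n + 2)) := by group
      rw [e]
      exact mul_mem (inv_mem (mul_mem (A1 f1) (A2 f2))) prod
    · have f3 : l + m + n + 2 ∉ q :: J := h3.resolve_left f2
      refine ⟨A1 f1, ?_, A3 f3⟩
      have e : A (l + m + 1) = (A l)⁻¹ *
          (A l * A (l + m + 1) * A (l + m + n + 2)) * (A (l + m + n + 2))⁻¹ := by group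
      rw [e]
      exact mul_mem (mul_mem (inv_mem (A1 f1)) prod) (inv_mem (A3 f3))
  · have f2 : l + m + 1 ∉ q :: J := h1.resolve_left f1
    have f3 : l + m + n + 2 ∉ q :: J := h2.resolve_left f1
    refine ⟨?_, A2 f2, A3 f3⟩
    have e : A l = (A l * A (l + m + 1) * A (l + m + n + 2)) *
        (A (l + m + 1) * A (l + m + n + 2))⁻¹ := by group
    rw [e]
    exact mul_mem prod (inv_mem (mul_mem (A2 f2) (A3 f3)))

/-- The front arcs of a lantern with one free handle belong to `LJ` once the `A`'s do. -/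
theorem fa_trip (L : Lk g A B C S) (R : Ln g A B C S) (P : Bp g A B C S q T) {l m n : ℕ}
    (hq : q < g) (h : l + m + n + 2 < g) (hs : q ≤ l ∨ l + m + n + 2 ≤ q)
    (hA : ∀ j, j < g → A j ∈ LJ g A B q T J)
    (hf : l ∉ q :: J ∨ l + m + 1 ∉ q :: J ∨ l + m + n + 2 ∉ q :: J) :
    fa C S l m ∈ LJ g A B q T J ∧ fa C S (l + m + 1) n ∈ LJ g A B q T J ∧
      fa C S l (m + n + 1) ∈ LJ g A B q T J := by
  obtain ⟨E, h0, e1, e2, e3, e4, e5⟩ := lt_side L R P hq h hs
  have k1 : l + (m + n + 1) + 1 = l + m + n + 2 := by omega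
  have k2 : l + m + 1 + n + 1 = l + m + n + 2 := by omega
  have hs1 : q ≤ l ∨ l + m + 1 ≤ q := hs.imp id fun _ => by omega
  have hs2 : q ≤ l + m + 1 ∨ l + m + 1 + n + 1 ≤ q := by
    rcases hs with hs | hs
    · exact Or.inl (by omega)
    · exact Or.inr (by omega)
  have hs3 : q ≤ l ∨ l + (m + n + 1) + 1 ≤ q := hs.imp id fun _ => by omega
  have g1 : (l ∉ q :: J ∨ l + m + 1 ∉ q :: J) → fa C S l m ∈ LJ g A B q T J :=
    fun hh => fa_free L P hq (by omega) hs1 hh
  have g2 : (l + m + 1 ∉ q :: J ∨ l + m + n + 2 ∉ q :: J) →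
      fa C S (l + m + 1) n ∈ LJ g A B q T J :=
    fun hh => fa_free L P hq (by omega) hs2 (by rw [k2]; exact hh)
  have g3 : (l ∉ q :: J ∨ l + m + n + 2 ∉ q :: J) →
      fa C S l (m + n + 1) ∈ LJ g A B q T J :=
    fun hh => fa_free L P hq (by omega) hs3 (by rw [k1]; exact hh)
  have io1 : fa C S (l + m + 1) n ∈ LJ g A B q T J →
      (A (l + m + 1) * B (l + m + 1)) ^ 3 * fa C S (l + m + 1) n *
      ((A (l + m + 1) * B (l + m + 1)) ^ 3)⁻¹ ∈ LJ g A B q T J :=
    fun hh => io_norm L P (by omega) hh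
  have hE : E ∈ LJ g A B q T J := by
    rcases hf with h1 | h1 | h1
    · exact mem_SJ e1 e2 (by omega) h1 e3
    · exact mem_SJ e1 e2 (by omega) h1 e4
    · exact mem_SJ e1 e2 (by omega) h1 e5
  have hprod : A l * A (l + m + 1) * A (l + m + n + 2) * E ∈ LJ g A B q T J :=
    mul_mem (mul_mem (mul_mem (hA _ (by omega)) (hA _ (by omega))) (hA _ (by omega))) hE
  rw [← h0] at hprod
  rcases hf with h1 | h1 | h1
  · have c1 := g1 (Or.inl h1)
    have c3 := g3 (Or.inl h1)
    have h4 := (Subgroup.mul_mem_cancel_left _ c1).1 ((Subgroup.mul_mem_cancel_right _ c3).1 hprod)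
    have h5 := ioi_norm L P (i := l + m + 1) (by omega) h4
    have e : ((A (l + m + 1) * B (l + m + 1)) ^ 3)⁻¹ *
        ((A (l + m + 1) * B (l + m + 1)) ^ 3 * fa C S (l + m + 1) n *
        ((A (l + m + 1) * B (l + m + 1)) ^ 3)⁻¹) * (A (l + m + 1) * B (l + m + 1)) ^ 3 =
        fa C S (l + m + 1) n := by group
    rw [e] at h5
    exact ⟨c1, h5, c3⟩
  · have c1 := g1 (Or.inr h1)
    have c2 := g2 (Or.inl h1)
    have h4 := (Subgroup.mul_mem_cancel_left _ (mul_mem c1 (io1 c2))).1 hprod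
    exact ⟨c1, c2, h4⟩
  · have c2 := g2 (Or.inr h1)
    have c3 := g3 (Or.inr h1)
    have h4 := (Subgroup.mul_mem_cancel_right _ (io1 c2)).1
      ((Subgroup.mul_mem_cancel_right _ c3).1 hprod)
    exact ⟨h4, c2, c3⟩

/-- There are two free handles on each side of `q`. -/
def Free2 (g q : ℕ) (J : List ℕ) : Prop :=
  (∃ x y, x < y ∧ y < q ∧ x ∉ J ∧ y ∉ J) ∧ ∃ x y, q < x ∧ x < y ∧ y < g ∧ x ∉ J ∧ y ∉ J

theorem trip_of_lt {x y z : ℕ} (h1 : x < y) (h2 : y < z) :
    ∃ m n, y = x + m + 1 ∧ z = x + m + n + 2 := ⟨y - x - 1, z - y - 1, by omega, by omega⟩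

/-- `A i` for a handle `i` on the same side of `q` as two free handles. -/
theorem A_side (L : Lk g A B C S) (R : Ln g A B C S) (P : Bp g A B C S q T) (hq : q < g)
    {x y i : ℕ} (hxy : x < y) (hx : x ∉ q :: J) (hy : y ∉ q :: J) (hi : i < g) (hyg : y < g)
    (hs : (q ≤ x ∧ q ≤ i) ∨ (y ≤ q ∧ i ≤ q)) : A i ∈ LJ g A B q T J := by
  by_cases h1 : i = x
  · rw [h1]; exact A_free L P (by omega) hx
  by_cases h2 : i = y
  · rw [h2]; exact A_free L P (by omega) hy
  rcases lt_or_gt_of_ne h1 with h3 | h3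
  · -- `i < x < y`
    obtain ⟨m, n, e1, e2⟩ := trip_of_lt h3 hxy
    rw [e1] at hx
    rw [e2] at hy
    exact (A_trip L R P hq (by omega) (by omega) (Or.inr hx) (Or.inr hy) (Or.inl hx)).1
  · rcases lt_or_gt_of_ne h2 with h4 | h4
    · obtain ⟨m, n, e1, e2⟩ := trip_of_lt h3 h4
      rw [e2] at hy
      rw [e1]
      exact (A_trip L R P hq (by omega) (by omega) (Or.inl hx) (Or.inl hx) (Or.inr hy)).2.1
    · obtain ⟨m, n, e1, e2⟩ := trip_of_lt hxy h4
      rw [e1] at hy
      rw [e2]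
      exact (A_trip L R P hq (by omega) (by omega) (Or.inl hx) (Or.inl hx) (Or.inl hy)).2.2

/-- **All `A i` belong to `LJ`.** -/
theorem A_mem (L : Lk g A B C S) (R : Ln g A B C S) (P : Bp g A B C S q T) (hq : q < g)
    (hF : Free2 g q J) {i : ℕ} (hi : i < g) : A i ∈ LJ g A B q T J := by
  obtain ⟨⟨x, y, h1, h2, h3, h4⟩, u, v, h5, h6, h7, h8, h9⟩ := hF
  have nm : ∀ z, z ≠ q → z ∉ J → z ∉ q :: J := fun z g1 g2 => by
    rw [List.mem_cons, not_or]; exact ⟨g1, g2⟩
  rcases le_total i q with h | h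
  · exact A_side L R P hq h1 (nm x (by omega) h3) (nm y (by omega) h4) hi (by omega)
      (Or.inr ⟨by omega, h⟩)
  · exact A_side L R P hq h6 (nm u (by omega) h8) (nm v (by omega) h9) hi h7
      (Or.inl ⟨by omega, h⟩)

/-- `T` belongs to `LJ`. -/
theorem T_mem' (L : Lk g A B C S) (R : Ln g A B C S) (P : Bp g A B C S q T) (hq : q < g)
    (hF : Free2 g q J) (hqJ : q ∉ J) : T ∈ LJ g A B q T J :=
  T_mem L P hqJ (A_mem L R P hq hF hq)

/-- The `B l` of the free handles belong to `LJ`. -/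
theorem B_mem' (L : Lk g A B C S) (R : Ln g A B C S) (P : Bp g A B C S q T) (hq : q < g)
    (hF : Free2 g q J) {l : ℕ} (hl : l < g) (hl' : l ∉ q :: J) : B l ∈ LJ g A B q T J :=
  B_mem L P hl' (A_mem L R P hq hF hl)

/-- Front arcs on the same side of `q` as a free handle which is not an end. -/
theorem fa_side (L : Lk g A B C S) (R : Ln g A B C S) (P : Bp g A B C S q T) (hq : q < g)
    (hF : Free2 g q J) {l n z : ℕ} (h : l + n + 1 < g) (hz : z ∉ q :: J) (hzg : z < g)
    (h1 : z ≠ l) (h2 : z ≠ l + n + 1)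
    (hs : (q ≤ l ∧ q ≤ z) ∨ (l + n + 1 ≤ q ∧ z ≤ q)) : fa C S l n ∈ LJ g A B q T J := by
  have hA : ∀ j, j < g → A j ∈ LJ g A B q T J := fun j hj => A_mem L R P hq hF hj
  rcases lt_or_gt_of_ne h1 with h3 | h3
  · -- `z < l`
    obtain ⟨m, n', e1, e2⟩ := trip_of_lt h3 (show l < l + n + 1 by omega)
    have e3 : n' = n := by omega
    rw [e3] at e2
    have h4 := (fa_trip L R P (l := z) (m := m) (n := n) hq (by omega) (by omega) hA
      (Or.inl hz)).2.1
    rwa [← e1] at h4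
  · rcases lt_or_gt_of_ne h2 with h4 | h4
    · obtain ⟨m, n', e1, e2⟩ := trip_of_lt h3 h4
      have e3 : n = m + n' + 1 := by omega
      rw [e1] at hz
      have h5 := (fa_trip L R P (l := l) (m := m) (n := n') hq (by omega) (by omega) hA
        (Or.inr (Or.inl hz))).2.2
      rwa [← e3] at h5
    · obtain ⟨m, n', e1, e2⟩ := trip_of_lt (show l < l + n + 1 by omega) h4
      have e3 : m = n := by omega
      rw [e3] at e2
      rw [e2] at hz
      exact (fa_trip L R P (l := l) (m := n) (n := n') hq (by omega) (by omega) hA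
        (Or.inr (Or.inr hz))).1

/-- **All front arcs on one side of `q` belong to `LJ`.** -/
theorem fa_mem (L : Lk g A B C S) (R : Ln g A B C S) (P : Bp g A B C S q T) (hq : q < g)
    (hF : Free2 g q J) {l n : ℕ} (h : l + n + 1 < g) (hs : q ≤ l ∨ l + n + 1 ≤ q) :
    fa C S l n ∈ LJ g A B q T J := by
  by_cases hf : l ∉ q :: J ∨ l + n + 1 ∉ q :: J
  · exact fa_free L P hq h hs hf
  rw [not_or, not_not, not_not] at hf
  have hF' := hF
  obtain ⟨⟨x, y, h1, h2, h3, h4⟩, u, v, h5, h6, h7, h8, h9⟩ := hF'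
  have nm : ∀ z, z ≠ q → z ∉ J → z ∉ q :: J := fun z g1 g2 => by
    rw [List.mem_cons, not_or]; exact ⟨g1, g2⟩
  rcases hs with hs | hs
  · have hu := nm u (by omega) h8
    exact fa_side L R P hq hF h hu (by omega) (fun e => hu (e ▸ hf.1)) (fun e => hu (e ▸ hf.2))
      (Or.inl ⟨hs, by omega⟩)
  · have hx := nm x (by omega) h3
    exact fa_side L R P hq hF h hx (by omega) (fun e => hx (e ▸ hf.1)) (fun e => hx (e ▸ hf.2))
      (Or.inr ⟨hs, by omega⟩)

/-- The twists `C i`. -/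
theorem C_mem (L : Lk g A B C S) (R : Ln g A B C S) (P : Bp g A B C S q T) (hq : q < g)
    (hF : Free2 g q J) (i : ℕ) : C i ∈ LJ g A B q T J := by
  by_cases hi : i + 1 < g
  · exact fa_mem L R P hq hF (l := i) (n := 0) hi (by omega)
  · rw [L.Cout i (by omega)]
    exact one_mem _

end Pool.MP_59b15d_al.H47E
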