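import Pool.Agent.H.MP_59b15d_al.h47e.Fb

set_option autoImplicit false

/-!
# The group attached to a bounding pair and a set of handles

`LJ g A B q T J`: the group generated by the elements which commute with the `A j`, `j ∈ J`, with
`A q` and with `T`, and satisfy the braid relation with `B l` for some `l < g`, `l ∉ q :: J`.
-/

namespace Pool.MP_59b15d_al.H47E

open Module Pool.MP_59b15d_al.H95E Pool.MP_59b15d_al.H93E

variable {F V Γ : Type*} [Field F] [AddCommGroup V] [Module F V] [Group Γ]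

/-- The generators. -/
def SJ (g : ℕ) (A B : ℕ → Γ) (q : ℕ) (T : Γ) (J : List ℕ) : Set Γ :=
  {t | (∀ j ∈ J, Commute t (A j)) ∧ Commute t (A q) ∧ Commute t T ∧
    ∃ l, l < g ∧ l ∉ q :: J ∧ t * B l * t = B l * t * B l}

/-- The group. -/
def LJ (g : ℕ) (A B : ℕ → Γ) (q : ℕ) (T : Γ) (J : List ℕ) : Subgroup Γ :=
  Subgroup.closure (SJ g A B q T J)

variable {g : ℕ} {A B C S : ℕ → Γ} {q : ℕ} {T : Γ} {J : List ℕ}

theorem SJ_le {t : Γ} (ht : t ∈ SJ g A B q T J) : t ∈ LJ g A B q T J :=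
  Subgroup.subset_closure ht

/-- Everything in `LJ` commutes with what the generators commute with. -/
theorem LJ_comm {x y : Γ} (hx : x ∈ LJ g A B q T J) (h : ∀ t ∈ SJ g A B q T J, Commute t y) :
    Commute x y := by
  rw [LJ] at hx
  induction hx using Subgroup.closure_induction with
  | mem x hx => exact h x hx
  | one => exact Commute.one_left y
  | mul x z _ _ hx hz => exact hx.mul_left hz
  | inv x _ hx => exact hx.inv_left

theorem LJ_A {x : Γ} (hx : x ∈ LJ g A B q T J) {j : ℕ} (hj : j ∈ J) : Commute x (A j) :=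
  LJ_comm hx fun _ ht => ht.1 j hj

theorem LJ_q {x : Γ} (hx : x ∈ LJ g A B q T J) : Commute x (A q) :=
  LJ_comm hx fun _ ht => ht.2.1

theorem LJ_T {x : Γ} (hx : x ∈ LJ g A B q T J) : Commute x T :=
  LJ_comm hx fun _ ht => ht.2.2.1

/-- An element which conjugates the generators into `LJ`. -/
theorem LJ_conj {y : Γ} (h : ∀ t ∈ SJ g A B q T J, y * t * y⁻¹ ∈ LJ g A B q T J) {x : Γ}
    (hx : x ∈ LJ g A B q T J) : y * x * y⁻¹ ∈ LJ g A B q T J := by
  rw [LJ] at hx
  induction hx using Subgroup.closure_induction with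
  | mem x hx => exact h x hx
  | one => rw [mul_one, mul_inv_cancel]; exact one_mem _
  | mul x z _ _ hx hz =>
    have e : y * (x * z) * y⁻¹ = (y * x * y⁻¹) * (y * z * y⁻¹) := by group
    rw [e]; exact mul_mem hx hz
  | inv x _ hx =>
    have e : y * x⁻¹ * y⁻¹ = (y * x * y⁻¹)⁻¹ := by group
    rw [e]; exact inv_mem hx

/-! ### The operator `D` -/

/-- If `D (x - 1) N` vanishes for the generators `x`, it vanishes for all `x` in the group. -/
theorem D_closure {ρ : Γ →* Module.End F V} {D N : Module.End F V} {X : Set Γ}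
    (hN : ∀ t ∈ X, Commute (ρ t) N) (h : ∀ t ∈ X, D * nn ρ t * N = 0) :
    ∀ x ∈ Subgroup.closure X, D * nn ρ x * N = 0 := by
  have hN' : ∀ x ∈ Subgroup.closure X, Commute (ρ x) N := by
    intro x hx
    induction hx using Subgroup.closure_induction with
    | mem x hx => exact hN x hx
    | one => rw [map_one]; exact Commute.one_left N
    | mul x z _ _ hx hz => rw [map_mul]; exact hx.mul_left hz
    | inv x _ hx =>
      have h1 : ρ x⁻¹ * ρ x = 1 := by rw [← map_mul, inv_mul_cancel, map_one]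
      have h2 : ρ x * ρ x⁻¹ = 1 := by rw [← map_mul, mul_inv_cancel, map_one]
      have h3 : ρ x * N = N * ρ x := hx
      change ρ x⁻¹ * N = N * ρ x⁻¹
      calc ρ x⁻¹ * N = ρ x⁻¹ * N * (ρ x * ρ x⁻¹) := by rw [h2, mul_one]
        _ = ρ x⁻¹ * (N * ρ x) * ρ x⁻¹ := by simp only [mul_assoc]
        _ = ρ x⁻¹ * (ρ x * N) * ρ x⁻¹ := by rw [h3]
        _ = (ρ x⁻¹ * ρ x) * N * ρ x⁻¹ := by simp only [mul_assoc]
        _ = _ := by rw [h1, one_mul]
  intro x hx
  induction hx using Subgroup.closure_induction with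
  | mem x hx => exact h x hx
  | one =>
    have e : nn ρ 1 = 0 := by rw [nn, map_one, sub_self]
    rw [e, mul_zero, zero_mul]
  | mul x z hx' hz' hx hz =>
    have e : nn ρ (x * z) = nn ρ x * ρ z + nn ρ z := by
      rw [nn, nn, nn, map_mul, sub_mul, one_mul]; abel
    have h1 : ρ z * N = N * ρ z := hN' z hz'
    calc D * nn ρ (x * z) * N = D * nn ρ x * (ρ z * N) + D * nn ρ z * N := by
          rw [e, mul_add, add_mul]; simp only [mul_assoc]
      _ = D * nn ρ x * N * ρ z + D * nn ρ z * N := by rw [h1]; simp only [mul_assoc]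
      _ = 0 := by rw [hx, hz, zero_mul, add_zero]
  | inv x hx' hx =>
    have e : nn ρ x⁻¹ = -(nn ρ x * ρ x⁻¹) := by
      rw [nn, nn, sub_mul, one_mul, ← map_mul, mul_inv_cancel, map_one]; abel
    have h1 : ρ x⁻¹ * N = N * ρ x⁻¹ := hN' x⁻¹ (inv_mem hx')
    calc D * nn ρ x⁻¹ * N = -(D * nn ρ x * (ρ x⁻¹ * N)) := by
          rw [e, mul_neg, neg_mul]; simp only [mul_assoc]
      _ = -(D * nn ρ x * N * ρ x⁻¹) := by rw [h1]; simp only [mul_assoc]
      _ = 0 := by rw [hx, zero_mul, neg_zero]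

/-- `D (x - 1) N` vanishes for a conjugate of `x` by an element commuting with `D` and `N`. -/
theorem D_conj {ρ : Γ →* Module.End F V} {D N : Module.End F V} {x y z : Γ}
    (hD : Commute (ρ y) D) (hN : Commute (ρ y) N) (hy : y * x = z * y)
    (h : D * nn ρ x * N = 0) : D * nn ρ z * N = 0 := by
  have h1 : ρ y * nn ρ x = nn ρ z * ρ y := by
    rw [nn, nn, mul_sub, sub_mul, one_mul, mul_one, ← map_mul, ← map_mul, hy]
  have h2 : ρ y * ρ y⁻¹ = 1 := by rw [← map_mul, mul_inv_cancel, map_one]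
  have h3 : D * nn ρ z * N * ρ y = 0 := by
    calc D * nn ρ z * N * ρ y = D * nn ρ z * (N * ρ y) := by rw [mul_assoc]
      _ = D * nn ρ z * (ρ y * N) := by rw [hN.eq]
      _ = D * (nn ρ z * ρ y) * N := by simp only [mul_assoc]
      _ = D * (ρ y * nn ρ x) * N := by rw [h1]
      _ = (D * ρ y) * nn ρ x * N := by simp only [mul_assoc]
      _ = ρ y * (D * nn ρ x * N) := by rw [← hD.eq]; simp only [mul_assoc]
      _ = 0 := by rw [h, mul_zero]
  calc D * nn ρ z * N = D * nn ρ z * N * (ρ y * ρ y⁻¹) := by rw [h2, mul_one]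
    _ = D * nn ρ z * N * ρ y * ρ y⁻¹ := by simp only [mul_assoc]
    _ = 0 := by rw [h3, zero_mul]

theorem rho_comm {ρ : Γ →* Module.End F V} {x y : Γ} (h : Commute x y) :
    Commute (ρ x) (ρ y) := by
  change ρ x * ρ y = ρ y * ρ x
  rw [← map_mul, ← map_mul, h.eq]

/-- **Step (2).** -/
theorem D_LJ (L : Lk g A B C S) (P : Bp g A B C S q T) {ρ : Γ →* Module.End F V}
    {N : Module.End F V} (hN : ∀ t, (∀ j ∈ J, Commute t (A j)) → Commute (ρ t) N)
    (h : ∀ l, l < g → l ∉ q :: J → (ρ (A q) - ρ T) * nn ρ (A l) * N = 0) :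
    ∀ x ∈ LJ g A B q T J, (ρ (A q) - ρ T) * nn ρ x * N = 0 := by
  refine D_closure (fun t ht => hN t ht.1) ?_
  rintro t ⟨h1, h2, h3, l, hl, hlJ, h4⟩
  rw [List.mem_cons, not_or] at hlJ
  obtain ⟨hlq, hlJ⟩ := hlJ
  have hBJ : ∀ j ∈ J, Commute (B l) (A j) := fun j hj =>
    (L.AB j l fun e => hlJ (e ▸ hj)).symm
  have hBq : Commute (B l) (A q) := (L.AB q l (Ne.symm hlq)).symm
  have hBT : Commute (B l) T := (P.TB l hlq).symm
  have key : ∀ y, Commute y (A q) → Commute y T → Commute (ρ y) (ρ (A q) - ρ T) :=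
    fun y h5 h6 => (rho_comm h5).sub_right (rho_comm h6)
  -- from `A l` to `B l`
  have e1 : (A l * B l) * A l = B l * (A l * B l) := by rw [L.brA l]; group
  have hAJ : ∀ j ∈ J, Commute (A l * B l) (A j) := fun j hj => (L.AA l j).mul_left (hBJ j hj)
  have s1 : (ρ (A q) - ρ T) * nn ρ (B l) * N = 0 :=
    D_conj (key _ ((L.AA l q).mul_left hBq) ((P.TA l).symm.mul_left hBT)) (hN _ hAJ) e1
      (h l hl (by rw [List.mem_cons, not_or]; exact ⟨hlq, hlJ⟩))
  -- from `B l` to `t`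
  have e2 : (B l * t) * B l = t * (B l * t) := by rw [← h4]; group
  have htJ : ∀ j ∈ J, Commute (B l * t) (A j) := fun j hj => (hBJ j hj).mul_left (h1 j hj)
  exact D_conj (key _ (hBq.mul_left h2) (hBT.mul_left h3)) (hN _ htJ) e2 s1

/-! ### The element which exchanges `A q` and `T` -/

/-- The element which exchanges `A q` and `T`. -/
def hh (A B : ℕ → Γ) (q : ℕ) (T : Γ) : Γ := B q * T * A q * B q

theorem h_A (L : Lk g A B C S) (P : Bp g A B C S q T) :
    SemiconjBy (hh A B q T) (A q) T := by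
  have h1 := L.brA q
  have h2 := P.brT
  calc hh A B q T * A q = B q * T * (A q * B q * A q) := by rw [hh]; group
    _ = B q * T * (B q * A q * B q) := by rw [h1]
    _ = (B q * T * B q) * A q * B q := by group
    _ = (T * B q * T) * A q * B q := by rw [h2]
    _ = _ := by rw [hh]; group

theorem h_T (L : Lk g A B C S) (P : Bp g A B C S q T) :
    SemiconjBy (hh A B q T) T (A q) := by
  have h1 := L.brA q
  have h2 := P.brT
  have h3 : T * A q = A q * T := P.TA q
  calc hh A B q T * T = B q * (T * A q) * B q * T := by rw [hh]; group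
    _ = B q * (A q * T) * B q * T := by rw [h3]
    _ = B q * A q * (T * B q * T) := by group
    _ = B q * A q * (B q * T * B q) := by rw [h2]
    _ = (B q * A q * B q) * T * B q := by group
    _ = (A q * B q * A q) * T * B q := by rw [h1]
    _ = A q * B q * (A q * T) * B q := by group
    _ = A q * B q * (T * A q) * B q := by rw [h3]
    _ = _ := by rw [hh]; group

theorem h_Aj (L : Lk g A B C S) (P : Bp g A B C S q T) {j : ℕ} (hj : j ≠ q) :
    Commute (hh A B q T) (A j) :=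
  ((((L.AB j q hj).symm).mul_left (P.TA j)).mul_left (L.AA q j)).mul_left (L.AB j q hj).symm

theorem h_Bj (L : Lk g A B C S) (P : Bp g A B C S q T) {j : ℕ} (hj : j ≠ q) :
    Commute (hh A B q T) (B j) :=
  (((L.BB q j).mul_left (P.TB j hj)).mul_left (L.AB q j hj.symm)).mul_left (L.BB q j)

theorem braid_conj' {y f x : Γ} (h : Commute y x) (hf : f * x * f = x * f * x) :
    (y * f * y⁻¹) * x * (y * f * y⁻¹) = x * (y * f * y⁻¹) * x :=
  (braid_conj h hf.symm).symm

/-- `hh` normalises `LJ`. -/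
theorem h_norm (L : Lk g A B C S) (P : Bp g A B C S q T) (hq : q ∉ J) {x : Γ}
    (hx : x ∈ LJ g A B q T J) : hh A B q T * x * (hh A B q T)⁻¹ ∈ LJ g A B q T J := by
  refine LJ_conj (fun t ht => ?_) hx
  obtain ⟨h1, h2, h3, l, h4, h5, h6⟩ := ht
  refine SJ_le ⟨fun j hj => ?_, ?_, ?_, l, h4, h5, ?_⟩
  · have hjq : j ≠ q := fun e => hq (e ▸ hj)
    exact comm_conj (h_Aj L P hjq) (h1 j hj)
  · exact comm_conj (h_T L P) h3
  · exact comm_conj (h_A L P) h2
  · rw [List.mem_cons, not_or] at h5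
    exact braid_conj' (h_Bj L P h5.1) h6

theorem hi_norm (L : Lk g A B C S) (P : Bp g A B C S q T) (hq : q ∉ J) {x : Γ}
    (hx : x ∈ LJ g A B q T J) : (hh A B q T)⁻¹ * x * hh A B q T ∈ LJ g A B q T J := by
  have h0 : (hh A B q T)⁻¹ * x * (hh A B q T)⁻¹⁻¹ ∈ LJ g A B q T J := by
    refine LJ_conj (fun t ht => ?_) hx
    obtain ⟨h1, h2, h3, l, h4, h5, h6⟩ := ht
    refine SJ_le ⟨fun j hj => ?_, ?_, ?_, l, h4, h5, ?_⟩
    · have hjq : j ≠ q := fun e => hq (e ▸ hj)
      exact comm_conj (h_Aj L P hjq).inv_left (h1 j hj)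
    · exact comm_conj (h_A L P).inv_symm_left h3
    · exact comm_conj (h_T L P).inv_symm_left h2
    · rw [List.mem_cons, not_or] at h5
      exact braid_conj' (h_Bj L P h5.1).inv_left h6
  rwa [inv_inv] at h0

/-- If `A q ∈ LJ`, then `T ∈ LJ`. -/
theorem T_mem (L : Lk g A B C S) (P : Bp g A B C S q T) (hq : q ∉ J)
    (hA : A q ∈ LJ g A B q T J) : T ∈ LJ g A B q T J := by
  have h1 := h_norm L P hq hA
  rwa [sc_conj (h_A L P)] at h1

/-! ### Normalisers of `LJ` -/

/-- An element commuting with `T`, the `A j` (`j ∈ q :: J`) and the `B l` (`l ∉ q :: J`)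
normalises `LJ`. -/
theorem LJ_norm {y : Γ} (h1 : ∀ j ∈ J, Commute y (A j)) (h2 : Commute y (A q))
    (h3 : Commute y T) (h4 : ∀ l, l ∉ q :: J → Commute y (B l)) {x : Γ}
    (hx : x ∈ LJ g A B q T J) : y * x * y⁻¹ ∈ LJ g A B q T J := by
  refine LJ_conj (fun t ht => ?_) hx
  obtain ⟨g1, g2, g3, k, g4, g5, g6⟩ := ht
  exact SJ_le ⟨fun j hj => comm_conj (h1 j hj) (g1 j hj), comm_conj h2 g2, comm_conj h3 g3, k, g4,
    g5, braid_conj' (h4 k g5) g6⟩

/-- `B l` normalises `LJ`. -/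
theorem B_norm (L : Lk g A B C S) (P : Bp g A B C S q T) {l : ℕ} (hl : l ∉ q :: J) {x : Γ}
    (hx : x ∈ LJ g A B q T J) : B l * x * (B l)⁻¹ ∈ LJ g A B q T J := by
  rw [List.mem_cons, not_or] at hl
  exact LJ_norm (fun j hj => (L.AB j l fun e => hl.2 (e ▸ hj)).symm)
    (L.AB q l (Ne.symm hl.1)).symm (P.TB l hl.1).symm (fun k _ => L.BB l k) hx

/-- The half turn of a handle other than `q` normalises `LJ`. -/
theorem io_norm (L : Lk g A B C S) (P : Bp g A B C S q T) {i : ℕ} (hi : i ≠ q) {x : Γ}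
    (hx : x ∈ LJ g A B q T J) : (A i * B i) ^ 3 * x * ((A i * B i) ^ 3)⁻¹ ∈ LJ g A B q T J :=
  LJ_norm (fun j _ => io_A L i j) (io_A L i q) (T_io P hi).symm (fun k _ => io_B L i k) hx

theorem ioi_norm (L : Lk g A B C S) (P : Bp g A B C S q T) {i : ℕ} (hi : i ≠ q) {x : Γ}
    (hx : x ∈ LJ g A B q T J) : ((A i * B i) ^ 3)⁻¹ * x * (A i * B i) ^ 3 ∈ LJ g A B q T J := by
  have h := LJ_norm (y := ((A i * B i) ^ 3)⁻¹) (fun j _ => (io_A L i j).inv_left)
    (io_A L i q).inv_left (T_io P hi).symm.inv_left (fun k _ => (io_B L i k).inv_left) hx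
  rwa [inv_inv] at h

/-- If `A l ∈ LJ` then `B l ∈ LJ`. -/
theorem B_mem (L : Lk g A B C S) (P : Bp g A B C S q T) {l : ℕ} (hl : l ∉ q :: J)
    (hA : A l ∈ LJ g A B q T J) : B l ∈ LJ g A B q T J := by
  have h1 := B_norm L P hl hA
  have h2 : A l * (B l * A l * (B l)⁻¹) * (A l)⁻¹ ∈ LJ g A B q T J :=
    mul_mem (mul_mem hA h1) (inv_mem hA)
  have e : A l * (B l * A l * (B l)⁻¹) * (A l)⁻¹ = B l := by
    calc A l * (B l * A l * (B l)⁻¹) * (A l)⁻¹ = (A l * B l * A l) * (B l)⁻¹ * (A l)⁻¹ := by group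
      _ = (B l * A l * B l) * (B l)⁻¹ * (A l)⁻¹ := by rw [L.brA l]
      _ = B l := by group
  rwa [e] at h2

end Pool.MP_59b15d_al.H47E
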