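import Pool.Agent.H.MP_59b15d_al.h47e.Lan

set_option autoImplicit false

/-!
# Consequences of the lantern relation for a general subgroup
-/

namespace Pool.MP_59b15d_al.H47E

open Module Pool.MP_59b15d_al.H95E Pool.MP_59b15d_al.H93E

variable {Γ : Type*} [Group Γ]

/-- The subgroup `X` contains everything that commutes with all `A i` and satisfies the braid
relation with the `B l` of a handle `l` with property `p`; the half turns normalise it. -/
structure XX (g : ℕ) (A B : ℕ → Γ) (p : ℕ → Prop) (X : Subgroup Γ) : Prop where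
  h1 : ∀ t, (∀ i, Commute t (A i)) → ∀ l, l < g → p l → t * B l * t = B l * t * B l → t ∈ X
  h2 : ∀ i, i < g → ∀ x ∈ X, (A i * B i) ^ 3 * x * ((A i * B i) ^ 3)⁻¹ ∈ X
  h3 : ∀ i, i < g → ∀ x ∈ X, ((A i * B i) ^ 3)⁻¹ * x * (A i * B i) ^ 3 ∈ X

variable {g : ℕ} {A B C S : ℕ → Γ} {p : ℕ → Prop} {X : Subgroup Γ}

namespace XX

/-- The twist `A l` of a free handle. -/
theorem A_free (L : Lk g A B C S) (Y : XX g A B p X) {l : ℕ} (hl : l < g) (hp : p l) :
    A l ∈ X := Y.h1 _ (L.AA l) l hl hp (L.brA l)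

/-- The data of a lantern. -/
theorem lt_all (L : Lk g A B C S) (R : Ln g A B C S) {l m n : ℕ} (h : l + m + n + 2 < g) :
    ∃ E, fa C S l m * ((A (l + m + 1) * B (l + m + 1)) ^ 3 * fa C S (l + m + 1) n *
      ((A (l + m + 1) * B (l + m + 1)) ^ 3)⁻¹) * fa C S l (m + n + 1) =
      A l * A (l + m + 1) * A (l + m + n + 2) * E ∧
      (∀ j, Commute E (A j)) ∧
      E * B l * E = B l * E * B l ∧
      E * B (l + m + 1) * E = B (l + m + 1) * E * B (l + m + 1) ∧
      E * B (l + m + n + 2) * E = B (l + m + n + 2) * E * B (l + m + n + 2) := by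
  obtain ⟨E, h0, h1, h2, h3⟩ := Lt_all L R l m n h
  have e : E = (A l * A (l + m + 1) * A (l + m + n + 2))⁻¹ *
      (fa C S l m * ((A (l + m + 1) * B (l + m + 1)) ^ 3 * fa C S (l + m + 1) n *
      ((A (l + m + 1) * B (l + m + 1)) ^ 3)⁻¹) * fa C S l (m + n + 1)) := by
    rw [h0]; group
  refine ⟨E, h0, fun j => ?_, h1, h2, h3⟩
  rw [e]
  exact ((((L.AA l j).mul_left (L.AA _ j)).mul_left (L.AA _ j)).inv_left).mul_left
      (((fa_A L m (by omega) j).mul_left (((io_A L _ j).mul_left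
        (fa_A L n (by omega) j)).mul_left (io_A L _ j).inv_left)).mul_left
        (fa_A L (m + n + 1) (by omega) j))

/-- Front arcs with a free end. -/
theorem fa_free (L : Lk g A B C S) (Y : XX g A B p X) {l n : ℕ}
    (h : l + n + 1 < g) (hf : p l ∨ p (l + n + 1)) : fa C S l n ∈ X := by
  rcases hf with hf | hf
  · exact Y.h1 _ (fa_A L n h) l (by omega) hf (fa_brl L n h).symm
  · exact Y.h1 _ (fa_A L n h) _ (by omega) hf (fa_brr L n h).symm

/-- All three `A`'s of a lantern with two free handles belong to `X`. -/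
theorem A_trip (L : Lk g A B C S) (R : Ln g A B C S) (Y : XX g A B p X) {l m n : ℕ}
    (h : l + m + n + 2 < g)
    (h1 : p l ∨ p (l + m + 1)) (h2 : p l ∨ p (l + m + n + 2))
    (h3 : p (l + m + 1) ∨ p (l + m + n + 2)) :
    A l ∈ X ∧ A (l + m + 1) ∈ X ∧ A (l + m + n + 2) ∈ X := by
  obtain ⟨E, h0, e1, e3, e4, e5⟩ := lt_all L R h
  have k1 : l + (m + n + 1) + 1 = l + m + n + 2 := by omega
  have k2 : l + m + 1 + n + 1 = l + m + n + 2 := by omega
  have c1 : fa C S l m ∈ X := fa_free L Y (by omega) h1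
  have c2 : fa C S (l + m + 1) n ∈ X := fa_free L Y (by omega) (by rw [k2]; exact h3)
  have c3 : fa C S l (m + n + 1) ∈ X := fa_free L Y (by omega) (by rw [k1]; exact h2)
  have c2' : (A (l + m + 1) * B (l + m + 1)) ^ 3 * fa C S (l + m + 1) n *
      ((A (l + m + 1) * B (l + m + 1)) ^ 3)⁻¹ ∈ X := Y.h2 _ (by omega) _ c2
  have hE : E ∈ X := by
    rcases h1 with h1 | h1
    · exact Y.h1 _ e1 _ (by omega) h1 e3
    · exact Y.h1 _ e1 _ (by omega) h1 e4
  have prod : A l * A (l + m + 1) * A (l + m + n + 2) ∈ X := by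
    have e : A l * A (l + m + 1) * A (l + m + n + 2) =
        fa C S l m * ((A (l + m + 1) * B (l + m + 1)) ^ 3 * fa C S (l + m + 1) n *
        ((A (l + m + 1) * B (l + m + 1)) ^ 3)⁻¹) * fa C S l (m + n + 1) * E⁻¹ := by
      rw [h0]; group
    rw [e]
    exact mul_mem (mul_mem (mul_mem c1 c2') c3) (inv_mem hE)
  have A1 : p l → A l ∈ X := fun hf => A_free L Y (by omega) hf
  have A2 : p (l + m + 1) → A (l + m + 1) ∈ X := fun hf => A_free L Y (by omega) hf
  have A3 : p (l + m + n + 2) → A (l + m + n + 2) ∈ X := fun hf => A_free L Y (by omega) hf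
  by_cases f1 : p l
  · by_cases f2 : p (l + m + 1)
    · refine ⟨A1 f1, A2 f2, ?_⟩
      have e : A (l + m + n + 2) = (A l * A (l + m + 1))⁻¹ *
          (A l * A (l + m + 1) * A (l + m + n + 2)) := by group
      rw [e]
      exact mul_mem (inv_mem (mul_mem (A1 f1) (A2 f2))) prod
    · have f3 : p (l + m + n + 2) := h3.resolve_left f2
      refine ⟨A1 f1, ?_, A3 f3⟩
      have e : A (l + m + 1) = (A l)⁻¹ *
          (A l * A (l + m + 1) * A (l + m + n + 2)) * (A (l + m + n + 2))⁻¹ := by group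
      rw [e]
      exact mul_mem (mul_mem (inv_mem (A1 f1)) prod) (inv_mem (A3 f3))
  · have f2 : p (l + m + 1) := h1.resolve_left f1
    have f3 : p (l + m + n + 2) := h2.resolve_left f1
    refine ⟨?_, A2 f2, A3 f3⟩
    have e : A l = (A l * A (l + m + 1) * A (l + m + n + 2)) *
        (A (l + m + 1) * A (l + m + n + 2))⁻¹ := by group
    rw [e]
    exact mul_mem prod (inv_mem (mul_mem (A2 f2) (A3 f3)))

/-- The front arcs of a lantern with one free handle belong to `X` once the `A`'s do. -/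
theorem fa_trip (L : Lk g A B C S) (R : Ln g A B C S) (Y : XX g A B p X) {l m n : ℕ}
    (h : l + m + n + 2 < g) (hA : ∀ j, j < g → A j ∈ X)
    (hf : p l ∨ p (l + m + 1) ∨ p (l + m + n + 2)) :
    fa C S l m ∈ X ∧ fa C S (l + m + 1) n ∈ X ∧ fa C S l (m + n + 1) ∈ X := by
  obtain ⟨E, h0, e1, e3, e4, e5⟩ := lt_all L R h
  have k1 : l + (m + n + 1) + 1 = l + m + n + 2 := by omega
  have k2 : l + m + 1 + n + 1 = l + m + n + 2 := by omega
  have g1 : (p l ∨ p (l + m + 1)) → fa C S l m ∈ X := fun hh => fa_free L Y (by omega) hh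
  have g2 : (p (l + m + 1) ∨ p (l + m + n + 2)) → fa C S (l + m + 1) n ∈ X :=
    fun hh => fa_free L Y (by omega) (by rw [k2]; exact hh)
  have g3 : (p l ∨ p (l + m + n + 2)) → fa C S l (m + n + 1) ∈ X :=
    fun hh => fa_free L Y (by omega) (by rw [k1]; exact hh)
  have hE : E ∈ X := by
    rcases hf with h1 | h1 | h1
    · exact Y.h1 _ e1 _ (by omega) h1 e3
    · exact Y.h1 _ e1 _ (by omega) h1 e4
    · exact Y.h1 _ e1 _ (by omega) h1 e5
  have hprod : A l * A (l + m + 1) * A (l + m + n + 2) * E ∈ X :=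
    mul_mem (mul_mem (mul_mem (hA _ (by omega)) (hA _ (by omega))) (hA _ (by omega))) hE
  rw [← h0] at hprod
  rcases hf with h1 | h1 | h1
  · have c1 := g1 (Or.inl h1)
    have c3 := g3 (Or.inl h1)
    have h4 := (Subgroup.mul_mem_cancel_left _ c1).1 ((Subgroup.mul_mem_cancel_right _ c3).1 hprod)
    have h5 := Y.h3 (l + m + 1) (by omega) _ h4
    have e : ((A (l + m + 1) * B (l + m + 1)) ^ 3)⁻¹ *
        ((A (l + m + 1) * B (l + m + 1)) ^ 3 * fa C S (l + m + 1) n *
        ((A (l + m + 1) * B (l + m + 1)) ^ 3)⁻¹) * (A (l + m + 1) * B (l + m + 1)) ^ 3 =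
        fa C S (l + m + 1) n := by group
    rw [e] at h5
    exact ⟨c1, h5, c3⟩
  · have c1 := g1 (Or.inr h1)
    have c2 := g2 (Or.inl h1)
    have h4 := (Subgroup.mul_mem_cancel_left _
      (mul_mem c1 (Y.h2 (l + m + 1) (by omega) _ c2))).1 hprod
    exact ⟨c1, c2, h4⟩
  · have c2 := g2 (Or.inr h1)
    have c3 := g3 (Or.inr h1)
    have h4 := (Subgroup.mul_mem_cancel_right _ (Y.h2 (l + m + 1) (by omega) _ c2)).1
      ((Subgroup.mul_mem_cancel_right _ c3).1 hprod)
    exact ⟨h4, c2, c3⟩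

/-- All `A i` belong to `X` if there are two free handles. -/
theorem A_mem (L : Lk g A B C S) (R : Ln g A B C S) (Y : XX g A B p X)
    {x y i : ℕ} (hxy : x < y) (hx : p x) (hy : p y) (hi : i < g) (hyg : y < g) : A i ∈ X := by
  by_cases h1 : i = x
  · rw [h1]; exact A_free L Y (by omega) hx
  by_cases h2 : i = y
  · rw [h2]; exact A_free L Y (by omega) hy
  rcases lt_or_gt_of_ne h1 with h3 | h3
  · obtain ⟨m, n, e1, e2⟩ := trip_of_lt h3 hxy
    rw [e1] at hx
    rw [e2] at hy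
    exact (A_trip L R Y (by omega) (Or.inr hx) (Or.inr hy) (Or.inl hx)).1
  · rcases lt_or_gt_of_ne h2 with h4 | h4
    · obtain ⟨m, n, e1, e2⟩ := trip_of_lt h3 h4
      rw [e2] at hy
      rw [e1]
      exact (A_trip L R Y (by omega) (Or.inl hx) (Or.inl hx) (Or.inr hy)).2.1
    · obtain ⟨m, n, e1, e2⟩ := trip_of_lt hxy h4
      rw [e1] at hy
      rw [e2]
      exact (A_trip L R Y (by omega) (Or.inl hx) (Or.inl hx) (Or.inl hy)).2.2

/-- Front arcs with a free handle which is not an end. -/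
theorem fa_side (L : Lk g A B C S) (R : Ln g A B C S) (Y : XX g A B p X)
    (hA : ∀ j, j < g → A j ∈ X) {l n z : ℕ} (h : l + n + 1 < g) (hz : p z) (hzg : z < g)
    (h1 : z ≠ l) (h2 : z ≠ l + n + 1) : fa C S l n ∈ X := by
  rcases lt_or_gt_of_ne h1 with h3 | h3
  · obtain ⟨m, n', e1, e2⟩ := trip_of_lt h3 (show l < l + n + 1 by omega)
    have e3 : n' = n := by omega
    rw [e3] at e2
    have h4 := (fa_trip L R Y (l := z) (m := m) (n := n) (by omega) hA (Or.inl hz)).2.1
    rwa [← e1] at h4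
  · rcases lt_or_gt_of_ne h2 with h4 | h4
    · obtain ⟨m, n', e1, e2⟩ := trip_of_lt h3 h4
      have e3 : n = m + n' + 1 := by omega
      rw [e1] at hz
      have h5 := (fa_trip L R Y (l := l) (m := m) (n := n') (by omega) hA
        (Or.inr (Or.inl hz))).2.2
      rwa [← e3] at h5
    · obtain ⟨m, n', e1, e2⟩ := trip_of_lt (show l < l + n + 1 by omega) h4
      have e3 : m = n := by omega
      rw [e3] at e2
      rw [e2] at hz
      exact (fa_trip L R Y (l := l) (m := n) (n := n') (by omega) hA (Or.inr (Or.inr hz))).1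

end XX

/-- **The lantern closure.** If there are two free handles, then `X` contains all `A i` and all
front arcs. -/
theorem lanX (L : Lk g A B C S) (R : Ln g A B C S) (Y : XX g A B p X)
    (hF : ∃ x y, x < y ∧ y < g ∧ p x ∧ p y) :
    (∀ i, i < g → A i ∈ X) ∧ ∀ l n, l + n + 1 < g → fa C S l n ∈ X := by
  obtain ⟨x, y, hxy, hy, px, py⟩ := hF
  have hA : ∀ i, i < g → A i ∈ X := fun i hi => XX.A_mem L R Y hxy px py hi hy
  refine ⟨hA, fun l n h => ?_⟩
  by_cases h1 : x ≠ l ∧ x ≠ l + n + 1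
  · exact XX.fa_side L R Y hA h px (by omega) h1.1 h1.2
  · have h2 : x = l ∨ x = l + n + 1 := by omega
    refine XX.fa_free L Y h ?_
    rcases h2 with h2 | h2
    · left; rw [← h2]; exact px
    · right; rw [← h2]; exact px

end Pool.MP_59b15d_al.H47E
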