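import Pool.Agent.H.MP_59b15d_al.h47e.Lan
import Pool.Agent.H.MP_59b15d_al.h95e.St2

set_option autoImplicit false

/-!
# The images of `D n_B n_J` and `D n_J` are fixed by the group of the bounding pair
-/

namespace Pool.MP_59b15d_al.H47E

open Module Pool.MP_59b15d_al.H95E Pool.MP_59b15d_al.H93E Pool.MP_59b15d_al.H11D

variable {F V Γ : Type*} [Field F] [AddCommGroup V] [Module F V] [Group Γ]
  {ρ : Γ →* Module.End F V} {g q m : ℕ} {A B C S : ℕ → Γ} {T : Γ} {J : List ℕ}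

/-- The group generated by `LJ` and `B q`. -/
def HJ (g : ℕ) (A B : ℕ → Γ) (q : ℕ) (T : Γ) (J : List ℕ) : Subgroup Γ :=
  Subgroup.closure ((LJ g A B q T J : Set Γ) ∪ {B q})

theorem LJ_le_HJ {x : Γ} (hx : x ∈ LJ g A B q T J) : x ∈ HJ g A B q T J :=
  Subgroup.subset_closure (Or.inl hx)

theorem Bq_HJ : B q ∈ HJ g A B q T J := Subgroup.subset_closure (Or.inr rfl)

theorem np_commute (ρ : Γ →* Module.End F V) {t : Γ} (h : ∀ j ∈ J, Commute t (A j)) :
    Commute (ρ t) (np ρ (J.map A)) := by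
  apply LinearMap.ext
  intro v
  apply rho_np ρ
  intro x hx
  obtain ⟨j, hj, rfl⟩ := List.mem_map.1 hx
  exact h j hj

/-- The image of `n_J` is stable under everything that commutes with the `A j`, `j ∈ J`. -/
theorem range_stable (ρ : Γ →* Module.End F V) {t : Γ} (h : ∀ j ∈ J, Commute t (A j)) :
    ∀ v ∈ LinearMap.range (np ρ (J.map A)), ρ t v ∈ LinearMap.range (np ρ (J.map A)) := by
  rintro _ ⟨w, rfl⟩
  refine ⟨ρ t w, ?_⟩
  have h1 : ρ t * np ρ (J.map A) = np ρ (J.map A) * ρ t := np_commute ρ h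
  exact (LinearMap.congr_fun h1 w).symm

theorem HJ_A (L : Lk g A B C S) (hqJ : q ∉ J) {x : Γ} (hx : x ∈ HJ g A B q T J) :
    ∀ j ∈ J, Commute x (A j) := by
  intro j hj
  rw [HJ] at hx
  induction hx using Subgroup.closure_induction with
  | mem x hx =>
    rcases hx with hx | hx
    · exact LJ_A hx hj
    · rw [Set.mem_singleton_iff] at hx
      subst hx
      exact (L.AB j q fun e => hqJ (e ▸ hj)).symm
  | one => exact Commute.one_left _
  | mul x z _ _ hx hz => exact hx.mul_left hz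
  | inv x _ hx => exact hx.inv_left

/-- **The bounding pair.** -/
theorem bpair (L : Lk g A B C S) (R : Ln g A B C S) (P : Bp g A B C S q T) (hq : q + 1 < g)
    (hF : Free2 g q J) (hqJ : q ∉ J)
    (hD : ∀ l, l < g → l ∉ q :: J →
      (ρ (A q) - ρ T) * nn ρ (A l) * np ρ (J.map A) = 0) :
    BPair ρ (A q) T (B q) (C q) (LJ g A B q T J) (HJ g A B q T J)
      (LinearMap.range (np ρ (J.map A))) where
  cee := (P.TA q).symm
  ceL := fun _ hl => (LJ_q hl).symm
  ceL' := fun _ hl => (LJ_T hl).symm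
  br := L.brA q
  br' := P.brT
  hs := C_mem L R P (by omega) hF q
  brs := (L.brC q hq).symm
  hH := rfl
  he := LJ_le_HJ (A_mem L R P (by omega) hF (by omega))
  he' := LJ_le_HJ (T_mem' L R P (by omega) hF hqJ)
  hU := fun _ hx => range_stable ρ (HJ_A L hqJ hx)
  hD := by
    rintro l hl _ ⟨w, rfl⟩
    have h1 := D_LJ L P (fun t ht => np_commute ρ ht) hD l hl
    exact LinearMap.congr_fun h1 w

/-- The elements of `HJ`. -/
theorem fj_of_fx (L : Lk g A B C S) (R : Ln g A B C S) (P : Bp g A B C S q T) (hq : q + 1 < g)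
    (hF : Free2 g q J) {E : Submodule F V} (hE : ∀ w ∈ E, w ∈ Fx ρ (HJ g A B q T J)) :
    FJ ρ A B C S g q J E where
  fA := fun _ hl w hw => hE w hw _ (LJ_le_HJ (A_mem L R P (by omega) hF hl))
  fB := by
    intro l hl hlJ w hw
    by_cases h : l = q
    · subst h
      exact hE w hw _ Bq_HJ
    · refine hE w hw _ (LJ_le_HJ (B_mem' L R P (by omega) hF hl ?_))
      rw [List.mem_cons, not_or]
      exact ⟨h, hlJ⟩
  fF := fun _ _ hn hs w hw => hE w hw _ (LJ_le_HJ (fa_mem L R P (by omega) hF hn hs.symm))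

/-- **The image of `D n_B n_J`.** -/
theorem fj_DB [FiniteDimensional F V] (L : Lk g A B C S) (R : Ln g A B C S)
    (P : Bp g A B C S q T) (hq : q + 1 < g) (hF : Free2 g q J) (hqJ : q ∉ J)
    (hD : ∀ l, l < g → l ∉ q :: J →
      (ρ (A q) - ρ T) * nn ρ (A l) * np ρ (J.map A) = 0) :
    FJ ρ A B C S g q J (EX ρ A ((ρ (A q) - ρ T) * nn ρ (B q)) J) := by
  apply fj_of_fx L R P hq hF
  rintro _ ⟨v, rfl⟩
  exact (bpair L R P hq hF hqJ hD).sec2 (v := np ρ (J.map A) v) ⟨v, rfl⟩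

/-- **The image of `D n_J`.** -/
theorem fj_D (L : Lk g A B C S) (R : Ln g A B C S)
    (P : Bp g A B C S q T) (hq : q + 1 < g) (hF : Free2 g q J) (hqJ : q ∉ J)
    (hD : ∀ l, l < g → l ∉ q :: J →
      (ρ (A q) - ρ T) * nn ρ (A l) * np ρ (J.map A) = 0)
    (h1 : ∀ v, (ρ (A q) - ρ T) (nn ρ (B q) (np ρ (J.map A) v)) = 0)
    (h2 : ∀ v, nn ρ (B q) ((ρ (A q) - ρ T) (np ρ (J.map A) v)) = 0) :
    FJ ρ A B C S g q J (EX ρ A (ρ (A q) - ρ T) J) := by
  apply fj_of_fx L R P hq hF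
  rintro _ ⟨v, rfl⟩
  refine (bpair L R P hq hF hqJ hD).sec2e ?_ ?_ (v := np ρ (J.map A) v) ⟨v, rfl⟩
  · rintro _ ⟨w, rfl⟩
    exact h1 w
  · rintro _ ⟨w, rfl⟩
    exact h2 w

end Pool.MP_59b15d_al.H47E
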